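import Mathlib
import Pool.Agent.LibTri.Build
import Pool.Agent.LibTri.Primes

set_option autoImplicit false

namespace Pool.Agent.Results.MP_136f1a_co.LogLogSquared

open Finset Pool.Agent.LibTri

/-- The largest number of triangles congruent to `Δ` spanned by an `n`-point set in three-space. -/
noncomputable def T (Δ : Fin 3 → E3) (n : ℕ) : ℕ :=
  sSup {m : ℕ | ∃ P : Finset E3, P.card = n ∧ congCount Δ P = m}

/-- The largest number of pairwise congruent triangles spanned by `n` points in three-space. -/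
noncomputable def T3 (n : ℕ) : ℕ :=
  sSup {m : ℕ | ∃ P : Finset E3, ∃ Δ : Fin 3 → E3,
    P.card = n ∧ AffineIndependent ℝ Δ ∧ congCount Δ P = m}

lemma congCount_le (Δ : Fin 3 → E3) (P : Finset E3) : congCount Δ P ≤ 2 ^ P.card := by
  classical
  unfold congCount
  refine (Finset.card_filter_le _ _).trans ?_
  rw [Finset.card_powerset]

lemma le_T {Δ : Fin 3 → E3} {P : Finset E3} {n : ℕ} (h : P.card = n) :
    congCount Δ P ≤ T Δ n := by
  apply le_csSup
  · refine ⟨2 ^ n, ?_⟩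
    rintro m ⟨P, hP, rfl⟩
    rw [← hP]
    exact congCount_le _ _
  · exact ⟨P, h, rfl⟩

lemma le_T3 {Δ : Fin 3 → E3} {P : Finset E3} {n : ℕ} (h : P.card = n)
    (hΔ : AffineIndependent ℝ Δ) : congCount Δ P ≤ T3 n := by
  apply le_csSup
  · refine ⟨2 ^ n, ?_⟩
    rintro m ⟨P, Δ, hP, _, rfl⟩
    rw [← hP]
    exact congCount_le _ _
  · exact ⟨P, Δ, h, hΔ, rfl⟩

lemma crs_ne (o x y : Fin 3 → ℤ)
    (h : AffineIndependent ℝ ![pt 1 o, pt 1 (o + x), pt 1 (o + y)]) : crs x y ≠ 0 := by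
  intro h0
  rw [affineIndependent_iff_linearIndependent_vsub ℝ _ (0 : Fin 3)] at h
  have c0 := congrFun h0 0
  have c1 := congrFun h0 1
  have c2 := congrFun h0 2
  simp only [crs, Matrix.cons_val_zero, Matrix.cons_val_one, Matrix.cons_val, Pi.zero_apply]
    at c0 c1 c2
  rw [linearIndependent_iff'] at h
  -- the two edge vectors
  let i1 : {i : Fin 3 // i ≠ 0} := ⟨1, by decide⟩
  let i2 : {i : Fin 3 // i ≠ 0} := ⟨2, by decide⟩
  have hi : i1 ≠ i2 := by decide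
  have hpt : ∀ v : Fin 3 → ℤ, pt 1 (o + v) -ᵥ pt 1 o = pt 1 v := by
    intro v
    ext i
    simp [pt]
  have key : ∀ s t : ℤ, (∀ i, s * x i + t * y i = 0) → s = 0 ∧ t = 0 := by
    intro s t hst
    have := h {i1, i2} (fun i => if i = i1 then (s:ℝ) else (t:ℝ)) (by
      rw [Finset.sum_pair hi]
      simp only [if_true]
      rw [if_neg (Ne.symm hi)]
      show (s:ℝ) • (pt 1 (o + x) -ᵥ pt 1 o) + (t:ℝ) • (pt 1 (o + y) -ᵥ pt 1 o) = 0
      rw [hpt, hpt]
      ext i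
      have := hst i
      have h2 : ((s * x i + t * y i : ℤ) : ℝ) = 0 := by rw [this]; simp
      push_cast at h2
      simpa [pt] using h2)
    have e1 := this i1 (by simp)
    have e2 := this i2 (by simp)
    simp only [if_true] at e1
    rw [if_neg (Ne.symm hi)] at e2
    exact ⟨by exact_mod_cast e1, by exact_mod_cast e2⟩
  -- x is not zero
  have hx : ¬ (∀ i, x i = 0) := by
    intro hx
    have := (key 1 0 (fun i => by rw [hx i]; ring)).1
    omega
  apply hx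
  intro i
  fin_cases i
  · have := (key (y 0) (-(x 0)) (fun i => by
      fin_cases i
      · show y 0 * x 0 + -(x 0) * y 0 = 0
        ring
      · show y 0 * x 1 + -(x 0) * y 1 = 0
        linarith
      · show y 0 * x 2 + -(x 0) * y 2 = 0
        linarith)).2
    show x 0 = 0
    omega
  · have := (key (y 1) (-(x 1)) (fun i => by
      fin_cases i
      · show y 1 * x 0 + -(x 1) * y 0 = 0
        linarith
      · show y 1 * x 1 + -(x 1) * y 1 = 0
        ring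
      · show y 1 * x 2 + -(x 1) * y 2 = 0
        linarith)).2
    show x 1 = 0
    omega
  · have := (key (y 2) (-(x 2)) (fun i => by
      fin_cases i
      · show y 2 * x 0 + -(x 2) * y 0 = 0
        linarith
      · show y 2 * x 1 + -(x 2) * y 1 = 0
        linarith
      · show y 2 * x 2 + -(x 2) * y 2 = 0
        ring)).2
    show x 2 = 0
    omega

/-- Choice of the parameters. -/
lemma params (ρ : ℕ) (hρ : 1 ≤ ρ) : ∃ n0 : ℕ, ∀ n : ℕ, n0 ≤ n → ∃ N g : ℕ, 3 ≤ N ∧ 1 ≤ g ∧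
    (4 * (4 * (∏ p ∈ oddPrimes N, p) ^ 2 * g ^ 2) * ρ) ^ 3 ≤ n ∧
    (n:ℝ) ^ ((1:ℝ) / 3) / (16 * ρ) ≤ 4 * (∏ p ∈ oddPrimes N, (p:ℝ)) ^ 2 * (g:ℝ) ^ 2 ∧
    Real.log (Real.log n) / 2 ≤ Real.log N := by
  have hρ0 : (0:ℝ) < ρ := by exact_mod_cast hρ
  -- eventual facts
  have hlog : Filter.Tendsto (fun n : ℕ => Real.log (n:ℝ)) Filter.atTop Filter.atTop :=
    Real.tendsto_log_atTop.comp tendsto_natCast_atTop_atTop
  have hpow : Filter.Tendsto (fun n : ℕ => (n:ℝ) ^ ((1:ℝ) / 6)) Filter.atTop Filter.atTop :=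
    (tendsto_rpow_atTop (by norm_num)).comp tendsto_natCast_atTop_atTop
  have ev1 := hlog.eventually_ge_atTop 2304
  have ev2 := hpow.eventually_ge_atTop (16 * (ρ:ℝ))
  obtain ⟨n0, hn0⟩ := Filter.eventually_atTop.mp (ev1.and ev2)
  refine ⟨max n0 1, ?_⟩
  intro n hn
  obtain ⟨hl, hp⟩ := hn0 n (le_trans (le_max_left _ _) hn)
  have hn1 : 1 ≤ n := le_trans (le_max_right _ _) hn
  have hnr : (1:ℝ) ≤ n := by exact_mod_cast hn1
  have hnpos : (0:ℝ) < n := by linarith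
  set L := Real.log (n:ℝ) with hL
  set N := ⌊L / 24⌋₊ with hN
  have hNle : (N:ℝ) ≤ L / 24 := Nat.floor_le (by positivity)
  have hNge : L / 48 ≤ (N:ℝ) := by
    have := Nat.lt_floor_add_one (L / 24)
    rw [← hN] at this
    linarith
  have hN48 : (48:ℝ) ≤ N := by linarith
  have hN3 : 3 ≤ N := by
    have : (3:ℝ) ≤ N := by linarith
    exact_mod_cast this
  set M := ∏ p ∈ oddPrimes N, p with hM
  have hMr : (∏ p ∈ oddPrimes N, (p:ℝ)) = (M:ℝ) := by rw [hM]; push_cast; rfl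
  have hMpos : 0 < M := Finset.prod_pos (fun p hp => (mem_oddPrimes.mp hp).2.2.pos)
  have hM0 : (0:ℝ) < M := by exact_mod_cast hMpos
  have hM4 : (M:ℝ) ≤ (4:ℝ) ^ N := by
    have := oddPrimes_prod_le N
    rw [← hM] at this
    exact_mod_cast this
  -- M^2 ≤ n^{1/6}
  set w := (n:ℝ) ^ ((1:ℝ) / 6) with hw
  have hwpos : 0 < w := Real.rpow_pos_of_pos hnpos _
  have hM2 : (M:ℝ) ^ 2 ≤ w := by
    have h1 : (M:ℝ) ^ 2 ≤ ((4:ℝ) ^ N) ^ 2 := pow_le_pow_left₀ hM0.le hM4 2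
    have h2 : ((4:ℝ) ^ N) ^ 2 = Real.exp ((N:ℝ) * Real.log 16) := by
      rw [← Real.rpow_natCast 4 N, ← Real.rpow_natCast, ← Real.rpow_mul (by norm_num)]
      rw [show (16:ℝ) = 4 ^ (2:ℝ) by norm_num, Real.log_rpow (by norm_num)]
      rw [Real.rpow_def_of_pos (by norm_num)]
      congr 1
      push_cast
      ring
    have h3 : w = Real.exp (L / 6) := by
      rw [hw, Real.rpow_def_of_pos hnpos]
      congr 1
      rw [← hL]; ring
    rw [h2] at h1
    rw [h3]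
    refine h1.trans (Real.exp_le_exp.mpr ?_)
    have hlog16 : Real.log 16 ≤ 4 := by
      have h16 : (16:ℝ) ≤ Real.exp 4 := by
        have := Real.exp_one_gt_d9
        have h4 : Real.exp 4 = Real.exp 1 ^ 4 := by
          rw [← Real.exp_nat_mul]; norm_num
        rw [h4]
        have h5 : (2:ℝ) ^ 4 ≤ Real.exp 1 ^ 4 := pow_le_pow_left₀ (by norm_num) (by linarith) 4
        linarith
      calc Real.log 16 ≤ Real.log (Real.exp 4) := Real.log_le_log (by norm_num) h16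
        _ = 4 := Real.log_exp 4
    calc (N:ℝ) * Real.log 16 ≤ (N:ℝ) * 4 := mul_le_mul_of_nonneg_left hlog16 (by positivity)
      _ ≤ L / 24 * 4 := by linarith
      _ = L / 6 := by ring
  have hw2 : (n:ℝ) ^ ((1:ℝ) / 3) = w ^ 2 := by
    rw [hw, ← Real.rpow_natCast, ← Real.rpow_mul hnpos.le]
    norm_num
  have hw6 : w ^ 6 = n := by
    rw [hw, ← Real.rpow_natCast, ← Real.rpow_mul hnpos.le]
    norm_num
  -- choice of g
  set q := w / (4 * M * Real.sqrt ρ) with hq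
  have hsρ : Real.sqrt ρ ^ 2 = ρ := Real.sq_sqrt hρ0.le
  have hsρ0 : 0 < Real.sqrt ρ := Real.sqrt_pos.mpr hρ0
  have hqpos : 0 < q := by positivity
  have hqsq : q ^ 2 = w ^ 2 / (16 * M ^ 2 * ρ) := by
    rw [hq, div_pow]
    congr 1
    rw [mul_pow, mul_pow, hsρ]; ring
  have hq1 : 1 ≤ q := by
    have : 1 ≤ q ^ 2 := by
      rw [hqsq, le_div_iff₀ (by positivity)]
      calc 1 * (16 * (M:ℝ) ^ 2 * ρ) = (M:ℝ) ^ 2 * (16 * ρ) := by ring
        _ ≤ w * w := by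
          apply mul_le_mul hM2 hp (by positivity) hwpos.le
        _ = w ^ 2 := by ring
    by_contra hcon
    push Not at hcon
    nlinarith
  set g := ⌊q⌋₊ with hg
  have hgle : (g:ℝ) ≤ q := Nat.floor_le hqpos.le
  have hg1 : 1 ≤ g := by rw [hg, Nat.one_le_floor_iff]; exact hq1
  have hg1' : (1:ℝ) ≤ g := by exact_mod_cast hg1
  have hgge : q / 2 ≤ (g:ℝ) := by
    have := Nat.lt_floor_add_one q
    rw [← hg] at this
    linarith
  refine ⟨N, g, hN3, hg1, ?_, ?_, ?_⟩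
  · rw [← hM]
    have h1 : ((4 * (4 * (M:ℝ) ^ 2 * (g:ℝ) ^ 2) * ρ) : ℝ) ≤ w ^ 2 := by
      have h2 : (g:ℝ) ^ 2 ≤ q ^ 2 := pow_le_pow_left₀ (by positivity) hgle 2
      rw [hqsq] at h2
      calc 4 * (4 * (M:ℝ) ^ 2 * (g:ℝ) ^ 2) * ρ = (16 * (M:ℝ) ^ 2 * ρ) * (g:ℝ) ^ 2 := by ring
        _ ≤ (16 * (M:ℝ) ^ 2 * ρ) * (w ^ 2 / (16 * M ^ 2 * ρ)) :=
            mul_le_mul_of_nonneg_left h2 (by positivity)
        _ = w ^ 2 := by field_simp
    have h3 : ((4 * (4 * (M:ℝ) ^ 2 * (g:ℝ) ^ 2) * ρ) : ℝ) ^ 3 ≤ (w ^ 2) ^ 3 :=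
      pow_le_pow_left₀ (by positivity) h1 3
    have h4 : (w ^ 2) ^ 3 = n := by rw [← hw6]; ring
    rw [h4] at h3
    exact_mod_cast h3
  · rw [hMr, hw2]
    have h2 : (q / 2) ^ 2 ≤ (g:ℝ) ^ 2 := pow_le_pow_left₀ (by positivity) hgge 2
    have h3 : (q / 2) ^ 2 = w ^ 2 / (64 * M ^ 2 * ρ) := by
      rw [div_pow, hqsq]; ring
    rw [h3] at h2
    calc w ^ 2 / (16 * ρ) = 4 * (M:ℝ) ^ 2 * (w ^ 2 / (64 * M ^ 2 * ρ)) := by
          field_simp; ring
      _ ≤ 4 * (M:ℝ) ^ 2 * (g:ℝ) ^ 2 := mul_le_mul_of_nonneg_left h2 (by positivity)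
  · have h48 : Real.log L / 2 ≤ Real.log (L / 48) := by
      have h5 : L / 48 = L ^ ((1:ℝ) / 2) * (L ^ ((1:ℝ) / 2) / 48) := by
        have : L ^ ((1:ℝ) / 2) * L ^ ((1:ℝ) / 2) = L := by
          rw [← Real.rpow_add (by linarith)]
          norm_num
        rw [← mul_div_assoc, this]
      have h6 : (48:ℝ) ≤ L ^ ((1:ℝ) / 2) := by
        have : (48:ℝ) = (2304:ℝ) ^ ((1:ℝ) / 2) := by
          rw [show (2304:ℝ) = 48 ^ (2:ℝ) by norm_num, ← Real.rpow_mul (by norm_num)]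
          norm_num
        rw [this]
        exact Real.rpow_le_rpow (by norm_num) hl (by norm_num)
      have h7 : L ^ ((1:ℝ) / 2) ≤ L / 48 := by
        rw [h5]
        have h8 : (0:ℝ) < L ^ ((1:ℝ) / 2) := Real.rpow_pos_of_pos (by linarith) _
        have h9 : (1:ℝ) ≤ L ^ ((1:ℝ) / 2) / 48 := by
          rw [le_div_iff₀ (by norm_num)]; linarith
        nlinarith
      calc Real.log L / 2 = Real.log (L ^ ((1:ℝ) / 2)) := by
            rw [Real.log_rpow (by linarith)]; ring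
        _ ≤ Real.log (L / 48) := Real.log_le_log (Real.rpow_pos_of_pos (by linarith) _) h7
    exact h48.trans (Real.log_le_log (by linarith) hNge)

lemma main (o x y : Fin 3 → ℤ) (hn : crs x y ≠ 0) :
    ∃ c : ℝ, 0 < c ∧ ∃ n0 : ℕ, ∀ n : ℕ, n0 ≤ n → ∃ P : Finset E3, P.card = n ∧
      c * (n:ℝ) ^ ((4:ℝ) / 3) * (Real.log (Real.log n)) ^ 2 ≤
        (congCount ![pt 1 o, pt 1 (o + x), pt 1 (o + y)] P : ℝ) := by
  obtain ⟨ρ, hρ1, hρx, hρy⟩ : ∃ ρ : ℕ, 1 ≤ ρ ∧
      x 0 * x 0 + x 1 * x 1 + x 2 * x 2 ≤ (ρ:ℤ) ^ 2 ∧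
      y 0 * y 0 + y 1 * y 1 + y 2 * y 2 ≤ (ρ:ℤ) ^ 2 := by
    refine ⟨(x 0 * x 0 + x 1 * x 1 + x 2 * x 2 + (y 0 * y 0 + y 1 * y 1 + y 2 * y 2)).toNat + 1,
      by omega, ?_, ?_⟩
    all_goals
      have h1 : 0 ≤ x 0 * x 0 + x 1 * x 1 + x 2 * x 2 := by
        nlinarith [sq_nonneg (x 0), sq_nonneg (x 1), sq_nonneg (x 2)]
      have h2 : 0 ≤ y 0 * y 0 + y 1 * y 1 + y 2 * y 2 := by
        nlinarith [sq_nonneg (y 0), sq_nonneg (y 1), sq_nonneg (y 2)]
      push_cast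
      rw [Int.toNat_of_nonneg (by omega)]
      nlinarith
  have hρ0 : (0:ℝ) < ρ := by exact_mod_cast hρ1
  obtain ⟨n0, hn0⟩ := params ρ hρ1
  refine ⟨1 / (16 ^ 4 * 864 * 576 * ρ), by positivity, max n0 3, ?_⟩
  intro n hnn
  obtain ⟨N, g, hN3, hg1, hsize, hK, hlogN⟩ := hn0 n (le_trans (le_max_left _ _) hnn)
  have hn3 : 3 ≤ n := le_trans (le_max_right _ _) hnn
  have hS : ∀ p ∈ oddPrimes N, p.Prime ∧ p ≠ 2 := by
    intro p hp
    rw [mem_oddPrimes] at hp
    exact ⟨hp.2.2, hp.1⟩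
  obtain ⟨k, hk1, hkK, hQ⟩ := pigeon (oddPrimes N) hS g hg1
  set M := ∏ p ∈ oddPrimes N, p with hM
  have hMr : (∏ p ∈ oddPrimes N, (p:ℝ)) = (M:ℝ) := by rw [hM]; push_cast; rfl
  rw [hMr] at hK hQ
  set K := 4 * M ^ 2 * g ^ 2 with hKdef
  have hKr : (K:ℝ) = 4 * (M:ℝ) ^ 2 * (g:ℝ) ^ 2 := by rw [hKdef]; push_cast; ring
  obtain ⟨P, hPcard, hP⟩ := count_copies (oddPrimes N) hS g k K hk1 hkK o x y hn ρ hρx hρy n hsize
  refine ⟨P, hPcard, ?_⟩
  set G := ∏ p ∈ oddPrimes N, (1 + 2 / (p:ℝ) - 1 / (p:ℝ) ^ 2) with hG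
  have hGge := G_ge N hN3
  rw [← hG] at hGge
  set C := (congCount ![pt 1 o, pt 1 (o + x), pt 1 (o + y)] P : ℝ) with hC
  have hPr : (((idx (oddPrimes N) g).filter (fun z => key z = k)).card : ℝ) *
      (2 * (K:ℝ) * ρ) ^ 3 ≤ 27 * C := by
    rw [hC]; exact_mod_cast hP
  have hlogn : 0 ≤ Real.log (Real.log n) ∨ Real.log (Real.log n) < 0 := le_or_gt _ _
  have hll : (Real.log (Real.log n)) ^ 2 / 576 ≤ G := by
    refine le_trans ?_ hGge
    have hnr : (3:ℝ) ≤ n := by exact_mod_cast hn3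
    have hl1 : 1 ≤ Real.log n := by
      rw [Real.le_log_iff_exp_le (by linarith)]
      have := Real.exp_one_lt_d9
      linarith
    have hll0 : 0 ≤ Real.log (Real.log n) := Real.log_nonneg hl1
    have h2 : (Real.log (Real.log n) / 2) ^ 2 ≤ (Real.log N) ^ 2 :=
      pow_le_pow_left₀ (by positivity) hlogN 2
    calc (Real.log (Real.log n)) ^ 2 / 576 = (Real.log (Real.log n) / 2) ^ 2 / 144 := by ring
      _ ≤ (Real.log N) ^ 2 / 144 := by linarith
      _ = (Real.log N / 12) ^ 2 := by ring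
  have hn0' : (0:ℝ) < n := by
    have : (3:ℝ) ≤ n := by exact_mod_cast hn3
    linarith
  set u := (n:ℝ) ^ ((1:ℝ) / 3) with hu
  have hu0 : 0 < u := Real.rpow_pos_of_pos hn0' _
  have hu4 : (n:ℝ) ^ ((4:ℝ) / 3) = u ^ 4 := by
    rw [hu, ← Real.rpow_natCast, ← Real.rpow_mul hn0'.le]
    norm_num
  rw [hu4]
  have hKu : u / (16 * ρ) ≤ (K:ℝ) := by rw [hKr]; exact hK
  have hK0 : (0:ℝ) ≤ K := by positivity
  have hG0 : 0 ≤ G := le_trans (by positivity) hll
  have hstep : (K:ℝ) ^ 4 * ρ ^ 3 / 32 * G ≤ 27 * C := by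
    refine le_trans ?_ hPr
    have hQ' : (K:ℝ) / 256 * G ≤
        (((idx (oddPrimes N) g).filter (fun z => key z = k)).card : ℝ) := by
      refine le_trans (le_of_eq ?_) hQ
      rw [hKr]; ring
    calc (K:ℝ) ^ 4 * ρ ^ 3 / 32 * G = ((K:ℝ) / 256 * G) * (2 * (K:ℝ) * ρ) ^ 3 := by ring
      _ ≤ _ := mul_le_mul_of_nonneg_right hQ' (by positivity)
  have hK4 : (u / (16 * ρ)) ^ 4 ≤ (K:ℝ) ^ 4 := pow_le_pow_left₀ (by positivity) hKu 4
  have hfin : (u / (16 * ρ)) ^ 4 * ρ ^ 3 / 32 * ((Real.log (Real.log n)) ^ 2 / 576) ≤ 27 * C := by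
    refine le_trans ?_ hstep
    apply mul_le_mul _ hll (by positivity) (by positivity)
    apply div_le_div_of_nonneg_right _ (by norm_num)
    exact mul_le_mul_of_nonneg_right hK4 (by positivity)
  have heq : (u / (16 * ρ)) ^ 4 * ρ ^ 3 / 32 * ((Real.log (Real.log n)) ^ 2 / 576) =
      27 * (1 / (16 ^ 4 * 864 * 576 * ρ) * u ^ 4 * (Real.log (Real.log n)) ^ 2) := by
    field_simp
    ring
  rw [heq] at hfin
  linarith

/-- Conjugation of an isometry by a homothety. -/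
noncomputable def conjIso (r : ℝ) (hr : 0 < r) (f : E3 ≃ᵢ E3) : E3 ≃ᵢ E3 where
  toFun v := r • f (r⁻¹ • v)
  invFun v := r • f.symm (r⁻¹ • v)
  left_inv v := by
    simp only [smul_smul, inv_mul_cancel₀ hr.ne', one_smul, IsometryEquiv.symm_apply_apply,
      mul_inv_cancel₀ hr.ne']
  right_inv v := by
    simp only [smul_smul, inv_mul_cancel₀ hr.ne', one_smul, IsometryEquiv.apply_symm_apply,
      mul_inv_cancel₀ hr.ne']
  isometry_toFun := by
    apply Isometry.of_dist_eq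
    intro v w
    rw [dist_smul₀, f.dist_eq, dist_smul₀, Real.norm_of_nonneg hr.le,
      Real.norm_of_nonneg (inv_nonneg.mpr hr.le), ← mul_assoc, mul_inv_cancel₀ hr.ne', one_mul]

lemma congCount_scale (r : ℝ) (hr : 0 < r) (Δ : Fin 3 → E3) (P : Finset E3) :
    ∃ P' : Finset E3, P'.card = P.card ∧ congCount Δ P ≤ congCount (fun i => r • Δ i) P' := by
  classical
  have hinj : Function.Injective (fun v : E3 => r • v) := smul_right_injective E3 hr.ne'
  refine ⟨P.image (fun v => r • v), Finset.card_image_of_injective _ hinj, ?_⟩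
  unfold congCount
  refine Finset.card_le_card_of_injOn (fun s => s.image (fun v => r • v)) ?_ ?_
  · intro s hs
    rw [Finset.mem_coe, Finset.mem_filter, Finset.mem_powerset] at hs ⊢
    obtain ⟨hsP, f, hf⟩ := hs
    refine ⟨Finset.image_subset_image hsP, conjIso r hr f, ?_⟩
    rw [Finset.coe_image, hf, ← Set.range_comp, ← Set.range_comp, ← Set.range_comp]
    congr 1
    funext i
    show r • f (Δ i) = r • f (r⁻¹ • (r • Δ i))
    rw [smul_smul, inv_mul_cancel₀ hr.ne', one_smul]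
  · intro s _ s' _ h
    exact Finset.image_injective hinj h

lemma congCount_congr (f : E3 ≃ᵢ E3) (Δ : Fin 3 → E3) (P : Finset E3) :
    congCount (fun i => f (Δ i)) P ≤ congCount Δ P := by
  classical
  unfold congCount
  apply Finset.card_le_card
  intro s hs
  rw [Finset.mem_filter] at hs ⊢
  obtain ⟨h1, h, hh⟩ := hs
  refine ⟨h1, f.trans h, ?_⟩
  rw [hh, ← Set.range_comp, ← Set.range_comp]
  rfl

/-- Lower bound of order `n^(4/3) (log log n)^2` for every triangle which is similar to a triangle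
with integer coordinates, and hence for `T3`. -/
theorem result :
    (∀ Δ : Fin 3 → E3, AffineIndependent ℝ Δ →
      (∃ r : ℝ, 0 < r ∧ ∃ f : E3 ≃ᵢ E3, ∀ i j, ∃ m : ℤ, f (Δ i) j = r * m) →
      ∃ c : ℝ, 0 < c ∧ ∃ n0 : ℕ, ∀ n : ℕ, n0 ≤ n →
        c * (n:ℝ) ^ ((4:ℝ) / 3) * (Real.log (Real.log n)) ^ 2 ≤ (T Δ n : ℝ)) ∧
    (∃ c : ℝ, 0 < c ∧ ∃ n0 : ℕ, ∀ n : ℕ, n0 ≤ n →
        c * (n:ℝ) ^ ((4:ℝ) / 3) * (Real.log (Real.log n)) ^ 2 ≤ (T3 n : ℝ)) := by
  have hgen : ∀ Δ : Fin 3 → E3, AffineIndependent ℝ Δ → (∀ i j, ∃ m : ℤ, Δ i j = m) →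
      ∃ c : ℝ, 0 < c ∧ ∃ n0 : ℕ, ∀ n : ℕ, n0 ≤ n → ∃ P : Finset E3, P.card = n ∧
        c * (n:ℝ) ^ ((4:ℝ) / 3) * (Real.log (Real.log n)) ^ 2 ≤ (congCount Δ P : ℝ) := by
    intro Δ hΔ hint
    choose A hA using hint
    have hΔeq : Δ = ![pt 1 (A 0), pt 1 (A 0 + (A 1 - A 0)), pt 1 (A 0 + (A 2 - A 0))] := by
      funext i
      fin_cases i
      · ext j; simp [pt, hA]
      · ext j; simp [pt, hA]
      · ext j; simp [pt, hA]
    rw [hΔeq] at hΔ ⊢
    exact main (A 0) (A 1 - A 0) (A 2 - A 0) (crs_ne _ _ _ hΔ)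
  refine ⟨?_, ?_⟩
  · intro Δ hΔ hsim
    obtain ⟨r, hr, f, hint⟩ := hsim
    -- the integral triangle
    let Δ' : Fin 3 → E3 := fun i => r⁻¹ • f (Δ i)
    have hΔ' : AffineIndependent ℝ Δ' := by
      have h1 : AffineIndependent ℝ (fun i => f (Δ i)) := by
        have := hΔ.map' (f.toRealAffineIsometryEquiv.toAffineEquiv : E3 →ᵃ[ℝ] E3)
          f.toRealAffineIsometryEquiv.injective
        exact this
      have h2 := h1.map' (LinearMap.toAffineMap (r⁻¹ • (LinearMap.id : E3 →ₗ[ℝ] E3))) (by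
        intro v w hvw
        have hr' : r⁻¹ ≠ 0 := inv_ne_zero hr.ne'
        exact smul_right_injective E3 hr' hvw)
      exact h2
    have hint' : ∀ i j, ∃ m : ℤ, Δ' i j = m := by
      intro i j
      obtain ⟨m, hm⟩ := hint i j
      refine ⟨m, ?_⟩
      show r⁻¹ * f (Δ i) j = m
      rw [hm, ← mul_assoc, inv_mul_cancel₀ hr.ne', one_mul]
    obtain ⟨c, hc, n0, h⟩ := hgen Δ' hΔ' hint'
    refine ⟨c, hc, n0, ?_⟩
    intro n hn
    obtain ⟨P, hP, hle⟩ := h n hn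
    obtain ⟨P', hP', hle'⟩ := congCount_scale r hr Δ' P
    have e : (fun i => r • Δ' i) = fun i => f (Δ i) := by
      funext i
      simp only [Δ', smul_smul, mul_inv_cancel₀ hr.ne', one_smul]
    rw [e] at hle'
    refine hle.trans ?_
    exact_mod_cast (hle'.trans (congCount_congr f Δ P')).trans (le_T (hP'.trans hP))
  · -- the right isosceles triangle
    let Δ : Fin 3 → E3 := ![pt 1 0, pt 1 ![1, 0, 0], pt 1 ![0, 1, 0]]
    have hΔ : AffineIndependent ℝ Δ := by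
      rw [affineIndependent_iff_linearIndependent_vsub ℝ _ (0 : Fin 3)]
      rw [linearIndependent_iff']
      intro s f hf
      -- extend by zero outside of s
      obtain ⟨F, hF⟩ : ∃ F : {i : Fin 3 // i ≠ 0} → ℝ, F = fun i => if i ∈ s then f i else 0 :=
        ⟨_, rfl⟩
      have hsum : ∑ i : {i : Fin 3 // i ≠ 0}, F i • (Δ i -ᵥ Δ 0) = 0 := by
        rw [← hf]
        rw [← Finset.sum_subset (Finset.subset_univ s)]
        · apply Finset.sum_congr rfl
          intro i hi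
          rw [hF]
          simp only [if_pos hi]
        · intro i _ hi
          rw [hF]
          simp only [if_neg hi, zero_smul]
      let i1 : {i : Fin 3 // i ≠ 0} := ⟨1, by decide⟩
      let i2 : {i : Fin 3 // i ≠ 0} := ⟨2, by decide⟩
      have huniv : (Finset.univ : Finset {i : Fin 3 // i ≠ 0}) = {i1, i2} := by
        decide
      rw [huniv, Finset.sum_pair (by decide)] at hsum
      have h0 := congrArg (fun v : E3 => v 0) hsum
      have h1 := congrArg (fun v : E3 => v 1) hsum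
      have h0' : F i1 = 0 := by simpa [Δ, i1, i2, pt] using h0
      have h1' : F i2 = 0 := by simpa [Δ, i1, i2, pt] using h1
      intro i hi
      have hcases : i = i1 ∨ i = i2 := by
        have : i ∈ (Finset.univ : Finset {i : Fin 3 // i ≠ 0}) := Finset.mem_univ i
        rw [huniv] at this
        simpa using this
      have hFi : F i = f i := by rw [hF]; simp only [if_pos hi]
      rw [← hFi]
      rcases hcases with h | h
      · rw [h]; exact h0'
      · rw [h]; exact h1'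
    obtain ⟨c, hc, n0, h⟩ := hgen Δ hΔ (by
      intro i j
      fin_cases i <;> fin_cases j
      · exact ⟨0, by simp [Δ, pt]⟩
      · exact ⟨0, by simp [Δ, pt]⟩
      · exact ⟨0, by simp [Δ, pt]⟩
      · exact ⟨1, by simp [Δ, pt]⟩
      · exact ⟨0, by simp [Δ, pt]⟩
      · exact ⟨0, by simp [Δ, pt]⟩
      · exact ⟨0, by simp [Δ, pt]⟩
      · exact ⟨1, by simp [Δ, pt]⟩
      · exact ⟨0, by simp [Δ, pt]⟩)
    refine ⟨c, hc, n0, ?_⟩
    intro n hn
    obtain ⟨P, hP, hle⟩ := h n hn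
    refine hle.trans ?_
    exact_mod_cast le_T3 hP hΔ

end Pool.Agent.Results.MP_136f1a_co.LogLogSquared
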